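import Mathlib

set_option autoImplicit false

namespace Pool.Agent.Results.MP_b34cfe_co.CapCounterexample

/-- the nine points `(x, y, x² + y²)` of `F_3^3` -/
def pt (p : ZMod 3 × ZMod 3) : Fin 3 → ZMod 3 := ![p.1, p.2, p.1 ^ 2 + p.2 ^ 2]

lemma pt_inj : Function.Injective pt := by decide

/-- three points of the cap with sum zero are equal -/
lemma cap : ∀ p q r : ZMod 3 × ZMod 3, pt p + pt q + pt r = 0 → p = q ∧ q = r := by
  decide +kernel

/-- each of the nine points twice -/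
def seq : Multiset (Fin 3 → ZMod 3) :=
  ((Finset.univ : Finset (ZMod 3 × ZMod 3)).val.map pt) +
    ((Finset.univ : Finset (ZMod 3 × ZMod 3)).val.map pt)

lemma seq_sum : seq.sum = 0 := by decide +kernel

lemma seq_card : Multiset.card seq = 18 := by decide +kernel

lemma count_le (x : Fin 3 → ZMod 3) : seq.count x ≤ 2 := by
  have h : ((Finset.univ : Finset (ZMod 3 × ZMod 3)).val.map pt).Nodup :=
    Multiset.Nodup.map pt_inj Finset.univ.nodup
  have h1 := Multiset.nodup_iff_count_le_one.mp h x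
  unfold seq
  rw [Multiset.count_add]
  omega

lemma mem_seq {x : Fin 3 → ZMod 3} (hx : x ∈ seq) : ∃ p, pt p = x := by
  unfold seq at hx
  rw [Multiset.mem_add, or_self, Multiset.mem_map] at hx
  obtain ⟨p, _, hp⟩ := hx
  exact ⟨p, hp⟩

lemma no_zero_sum (T : Multiset (Fin 3 → ZMod 3)) (hT : T ≤ seq) (hc : Multiset.card T = 3) :
    T.sum ≠ 0 := by
  intro h0
  obtain ⟨x, y, z, rfl⟩ := Multiset.card_eq_three.mp hc
  obtain ⟨p, rfl⟩ := mem_seq (Multiset.mem_of_le hT (by simp : x ∈ ({x, y, z} : Multiset _)))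
  obtain ⟨q, rfl⟩ := mem_seq (Multiset.mem_of_le hT (by simp : y ∈ ({pt p, y, z} : Multiset _)))
  obtain ⟨r, rfl⟩ := mem_seq (Multiset.mem_of_le hT (by simp : z ∈ ({pt p, pt q, z} : Multiset _)))
  have h1 : pt p + pt q + pt r = 0 := by
    rw [← h0]
    simp [add_assoc]
  obtain ⟨h2, h3⟩ := cap p q r h1
  subst h2
  subst h3
  have h4 := Multiset.le_iff_count.mp hT (pt p)
  have h5 := count_le (pt p)
  have h6 : Multiset.count (pt p) ({pt p, pt p, pt p} : Multiset (Fin 3 → ZMod 3)) = 3 := by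
    simp
  omega

/-- **The bound of Q1 fails**: with `n = 3`, `t = 1`, `d = 3`, where `l = 8` is the least integer
`≥ 2^d` not dividing `n` and the bound is `(t + 2^d - 1) n - l + 1 = 17`, there is a zero-sum
sequence over `(ℤ/nℤ)^d` of length `18` without zero-sum subsequence of length `n t = 3`. -/
theorem result :
    ∃ n t d l : ℕ, 0 < n ∧ 0 < t ∧ 0 < d ∧ IsLeast {m : ℕ | 2 ^ d ≤ m ∧ ¬ m ∣ n} l ∧
      ∃ S : Multiset (Fin d → ZMod n), S.sum = 0 ∧
        ((t : ℤ) + 2 ^ d - 1) * n - l + 1 < (Multiset.card S : ℤ) ∧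
        ∀ T ≤ S, Multiset.card T = n * t → T.sum ≠ 0 := by
  refine ⟨3, 1, 3, 8, by norm_num, by norm_num, by norm_num, ⟨⟨by norm_num, by norm_num⟩, ?_⟩,
    seq, seq_sum, ?_, ?_⟩
  · rintro m ⟨hm, _⟩
    simpa using hm
  · rw [seq_card]; norm_num
  · intro T hT hc
    exact no_zero_sum T hT (by simpa using hc)

end Pool.Agent.Results.MP_b34cfe_co.CapCounterexample
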